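import Mathlib
import Pool.Agent.Lib.helper7.GenLatin

set_option autoImplicit false

namespace Pool.Agent.Results.MP_b62fd5_al.Exists

open Pool.Agent.Lib.helper7.GenLatin
open scoped Pointwise

universe u

/-- The cells `(x, y, xy)` of the Latin square of a binary operation. -/
def Cells {T : Type} (op : T → T → T) : Type := {t : Fin 3 → T // t 2 = op (t 0) (t 1)}

/-- The autoparatopism group, as the group of permutations of the cells induced by applying a
bijection of `T` in each coordinate and permuting the three coordinates. -/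
def autoparatopisms {T : Type} (op : T → T → T) : Subgroup (Equiv.Perm (Cells op)) where
  carrier := {F | ∃ (α : Fin 3 → Equiv.Perm T) (σ : Equiv.Perm (Fin 3)),
    ∀ (t : Cells op) (i : Fin 3), (F t).1 i = α i (t.1 (σ i))}
  one_mem' := ⟨fun _ => 1, 1, fun _ _ => rfl⟩
  mul_mem' := by
    rintro F G ⟨α, σ, h⟩ ⟨β, τ, k⟩
    exact ⟨fun i => α i * β (σ i), τ * σ, fun t i => by
      rw [Equiv.Perm.mul_apply, h, k]; rfl⟩
  inv_mem' := by
    rintro F ⟨α, σ, h⟩
    refine ⟨fun i => (α (σ⁻¹ i))⁻¹, σ⁻¹, fun t i => ?_⟩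
    have := h (F⁻¹ t) (σ⁻¹ i)
    simp only [Equiv.Perm.coe_inv, Equiv.apply_symm_apply] at this ⊢
    rw [this, Equiv.symm_apply_apply]

def l0 : List (L × L × L) :=
  ([(0, 0, 0), (1, 1, 0), (0, 1, 1), (1, 0, 1), (2, 0, 2), (3, 1, 2), (2, 1, 3), (3, 0, 4)] :
    List (ℕ × ℕ × ℕ)).flatMap fun t =>
    [((0, 0, t.1), (1, 0, t.2.1), (2, 0, t.2.2)), ((1, 0, t.2.1), (2, 0, t.2.2), (0, 0, t.1)),
      ((2, 0, t.2.2), (0, 0, t.1), (1, 0, t.2.1))]

def q0 : Cond where
  N := 1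
  R x y z := (x, y, z) ∈ l0
  m := 0
  f _ _ _ := False
  str := ⟨fun h => (by decide +kernel : ∀ t ∈ l0, (t.2.1, t.2.2, t.1) ∈ l0) _ h,
    fun h => (by decide +kernel : ∀ t ∈ l0, t.2.1.1 = t.1.1 + 1) _ h,
    fun h k => (by decide +kernel : ∀ t ∈ l0, ∀ s ∈ l0, t.1 = s.1 → t.2.1 = s.2.1 →
      t.2.2 = s.2.2) _ h _ k rfl rfl,
    fun h => (by decide +kernel : ∀ t ∈ l0, t.1.2.1 < 1) _ h⟩
  good _ := ⟨⟨False.elim, fun _ => False.elim⟩, ⟨False.elim, fun _ => False.elim⟩,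
    ⟨0, fun _ _ => False.elim⟩, False.elim⟩
  emp _ _ _ _ := id

def nm (u : Fin 3 → L) : Fin 3 → ℕ × ℕ := fun e => (u (e - (u 0).1)).2

def lf (t : Fin 3 → ℕ × ℕ) : Fin 3 → L := fun e => (e, t e)

theorem nm_lf (t : Fin 3 → ℕ × ℕ) (r : Fin 3) : nm (fun e => lf t (e + r)) = t := by
  funext e
  simp [nm, lf]

/-- There is an infinite quasigroup, not isotopic to any group, whose autoparatopism group acts
primitively on its cells. -/
theorem result : ∃ (T : Type) (op : T → T → T),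
    (∀ a b, ∃! x, op a x = b) ∧ (∀ a b, ∃! y, op y a = b) ∧ Infinite T ∧
    (∀ (G : Type u) [Group G] (α β γ : T ≃ G), ¬ ∀ x y, γ (op x y) = α x * β y) ∧
    MulAction.IsPreprimitive (autoparatopisms op) (Cells op) := by
  obtain ⟨R, Φ, h0, cyc, col, lat, tot, sh, pr, tr, E⟩ := exists_model q0
  have t0 : ∀ a b : ℕ × ℕ, ∃ c : ℕ × ℕ, R (0, a) (1, b) (2, c) := fun a b => by
    obtain ⟨⟨e, c⟩, h⟩ := tot (0, a) (1, b) rfl
    obtain rfl : e = 2 := col (cyc h)
    exact ⟨c, h⟩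
  choose op hop using t0
  have iff : ∀ a b c, op a b = c ↔ R (0, a) (1, b) (2, c) := fun a b c =>
    ⟨fun h => h ▸ hop a b, fun h => congrArg Prod.snd (lat (hop a b) h)⟩
  have cc : ∀ {t}, Cell R t → ∀ e, (t e).1 = (t 0).1 + e := by
    intro t h e
    have h1 := col (h 0)
    have h2 := col (h 1)
    fin_cases e
    · simp
    · exact h1
    · show (t (1 + 1)).1 = _
      rw [h2]
      show (t (0 + 1)).1 + 1 = _
      rw [h1, add_assoc]
      rfl
  have lfnm : ∀ {t}, Cell R t → ∀ e, lf (nm t) e = t (e - (t 0).1) := fun h e =>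
    Prod.ext (by rw [cc h]; simp [lf]) rfl
  have rot : ∀ {t}, Cell R t → ∀ r, Cell R fun e => t (e + r) := fun h r e => by
    have := h (e + r)
    rwa [add_right_comm e r, add_right_comm e r] at this
  have c1 : ∀ t : Cells op, Cell R (lf t.1) := fun t => cell_of cyc ((iff _ _ _).1 t.2.symm)
  have c2 : ∀ {t}, Cell R t → nm t 2 = op (nm t 0) (nm t 1) := by
    intro t h
    have := rot h (-(t 0).1) 0
    simp only [← sub_eq_add_neg, ← lfnm h] at this
    exact ((iff _ _ _).2 this).symm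
  let mk : ∀ t, Cell R t → Cells op := fun t h => ⟨nm t, c2 h⟩
  have key : ∀ (φ : L → L) (s : Fin 3), (∀ x, (φ x).1 = x.1 + s) → ∀ {t}, Cell R t →
      nm (φ ∘ lf (nm t)) = nm (φ ∘ t) := by
    intro φ s hs t h
    funext e
    show (φ (lf (nm t) (e - (φ (lf (nm t) 0)).1))).2 = (φ (t (e - (φ (t 0)).1))).2
    rw [lfnm h, hs, hs]
    congr 3
    show e - (0 + s) - (t 0).1 = e - ((t 0).1 + s)
    abel
  have nl : ∀ t, nm (lf t) = t := fun t => by simpa using nm_lf t 0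
  have act : ∀ i, ∃ F : autoparatopisms op, ∀ t (h : Cell R t) t' (h' : Cell R t'), Φ i ∘ t = t' →
      F • mk t h = mk t' h' := by
    intro i
    obtain ⟨s, hs⟩ := sh i
    have hs' : ∀ x, ((Φ i).symm x).1 = x.1 + -s := fun x => by
      have := hs ((Φ i).symm x)
      rw [Equiv.apply_symm_apply] at this
      rw [this]; abel
    have p1 : ∀ {t}, Cell R t → Cell R (Φ i ∘ t) := fun h e => (pr i _ _ _).1 (h e)
    have p2 : ∀ {t}, Cell R t → Cell R ((Φ i).symm ∘ t) := fun h e => (pr i _ _ _).2 (by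
      simpa using h e)
    refine ⟨⟨⟨fun t => ⟨nm (Φ i ∘ lf t.1), c2 (p1 (c1 t))⟩,
      fun t => ⟨nm ((Φ i).symm ∘ lf t.1), c2 (p2 (c1 t))⟩, fun t => Subtype.ext ?_,
      fun t => Subtype.ext ?_⟩, fun e => ⟨fun a => (Φ i (e - s, a)).2,
        fun b => ((Φ i).symm (e, b)).2, fun a => ?_, fun b => ?_⟩, Equiv.subRight s,
        fun t e => ?_⟩, ?_⟩
    · show nm ((Φ i).symm ∘ lf (nm (Φ i ∘ lf t.1))) = t.1
      rw [key _ _ hs' (p1 (c1 t)), ← Function.comp_assoc, Equiv.symm_comp_self, Function.id_comp, nl]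
    · show nm (Φ i ∘ lf (nm ((Φ i).symm ∘ lf t.1))) = t.1
      rw [key _ _ hs (p2 (c1 t)), ← Function.comp_assoc, Equiv.self_comp_symm, Function.id_comp, nl]
    · have : (e, (Φ i (e - s, a)).2) = Φ i (e - s, a) := Prod.ext (by rw [hs]; simp) rfl
      show ((Φ i).symm (e, (Φ i (e - s, a)).2)).2 = a
      rw [this, Equiv.symm_apply_apply]
    · have : (e - s, ((Φ i).symm (e, b)).2) = (Φ i).symm (e, b) :=
        Prod.ext (by rw [hs']; simp [sub_eq_add_neg]) rfl
      show (Φ i (e - s, ((Φ i).symm (e, b)).2)).2 = b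
      rw [this, Equiv.apply_symm_apply]
    · show (Φ i (lf t.1 (e - (Φ i (lf t.1 0)).1))).2 = (Φ i (lf t.1 (e - s))).2
      rw [hs]
      simp [lf]
    · rintro t h _ h' rfl
      exact Subtype.ext (key _ _ hs h)
  choose F hF using act
  have nc : ∀ (c : Cells op) (r : Fin 3),
      mk (fun e => lf c.1 (e + r)) (rot (c1 c) r) = c :=
    fun c r => Subtype.ext (nm_lf _ _)
  have nc0 : ∀ c : Cells op, mk (lf c.1) (c1 c) = c :=
    fun c => Subtype.ext (nl _)
  refine ⟨ℕ × ℕ, op, fun a b => ?_, fun a b => ?_, inferInstance, fun G _ α β γ h => ?_,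
    { exists_smul_eq := fun a b => ?_, isTrivialBlock_of_isBlock := fun {B} hB => ?_ }⟩
  · obtain ⟨⟨e, c⟩, h⟩ := tot (2, b) (0, a) rfl
    obtain rfl : e = 1 := col (cyc h)
    exact ⟨c, (iff _ _ _).2 (cyc h), fun c' k =>
      congrArg Prod.snd (lat (cyc (cyc ((iff _ _ _).1 k))) h)⟩
  · obtain ⟨⟨e, c⟩, h⟩ := tot (1, a) (2, b) rfl
    obtain rfl : e = 0 := col (cyc h)
    exact ⟨c, (iff _ _ _).2 (cyc (cyc h)), fun c' k =>
      congrArg Prod.snd (lat (cyc ((iff _ _ _).1 k)) h)⟩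
  · have k : ∀ r c s : ℕ, (((0, 0, r), (1, 0, c), (2, 0, s)) : L × L × L) ∈ l0 →
        γ (0, s) = α (0, r) * β (0, c) := fun r c s m => by
      rw [← h, (iff _ _ _).2 (h0 _ _ _ m)]
    have k1 := (k 0 0 0 (by decide)).symm.trans (k 1 1 0 (by decide))
    have k2 := (k 0 1 1 (by decide)).symm.trans (k 1 0 1 (by decide))
    have k3 := (k 2 0 2 (by decide)).symm.trans (k 3 1 2 (by decide))
    have : γ (0, 3) = γ (0, 4) := by
      rw [k 2 1 3 (by decide), k 3 0 4 (by decide), ← mul_inv_eq_iff_eq_mul.2 k3]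
      rw [eq_mul_inv_iff_mul_eq.2 k1] at k2
      rw [mul_assoc, mul_assoc, mul_right_inj] at k2
      rw [mul_assoc, mul_assoc, mul_right_inj]
      calc β (0, 1) = β (0, 0) * (β (0, 1) * ((β (0, 0))⁻¹ * β (0, 1)))⁻¹ * β (0, 1) := by
            rw [k2]; group
        _ = _ := by group
    exact absurd (γ.injective this) (by decide)
  · obtain ⟨i, hi⟩ := tr _ _ (c1 a) (c1 b)
    have := hF i _ (c1 a) _ (c1 b) hi
    rw [nc0, nc0] at this
    exact ⟨F i, this⟩
  · rw [MulAction.IsTrivialBlock, or_iff_not_imp_left, Set.not_subsingleton_iff]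
    rintro ⟨a, ha, b, hb, hab⟩
    have three : ∀ e, lf a.1 e = lf b.1 e → lf a.1 (e + 1) = lf b.1 (e + 1) → False := by
      intro e k1 k2
      have k3 := lat (c1 a e) (k1 ▸ k2 ▸ c1 b e)
      refine hab (Subtype.ext (funext fun e' => ?_))
      rcases (by decide : ∀ e e' : Fin 3, e' = e ∨ e' = e + 1 ∨ e' = e + 2) e e' with
        rfl | rfl | rfl
      exacts [congrArg Prod.snd k1, congrArg Prod.snd k2, congrArg Prod.snd k3]
    obtain ⟨e0, he0⟩ : ∃ e0, ∀ e, lf a.1 e = lf b.1 e → e = e0 := by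
      by_cases k : ∃ e, lf a.1 e = lf b.1 e
      · obtain ⟨e0, k⟩ := k
        refine ⟨e0, fun e k' => ?_⟩
        rcases (by decide : ∀ e e' : Fin 3, e' = e ∨ e' = e + 1 ∨ e = e' + 1) e0 e with
          rfl | rfl | rfl
        exacts [rfl, (three _ k k').elim, (three _ k' k).elim]
      · exact ⟨0, fun e k' => (k ⟨e, k'⟩).elim⟩
    have shr : ∀ (c d : Cells op) (k : Fin 3), c.1 k = d.1 k → c ∈ B → d ∈ B := by
      intro c d k hk hc
      obtain ⟨i, j, l, v', w, hv', hw, e1, e2, e3, e4, e5, e6⟩ := E _ _ _ _ (c1 a) (c1 b)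
        (rot (c1 c) (k - e0)) (rot (c1 d) (k - e0)) rfl rfl fun e he => by
          obtain rfl := he0 e he
          simp [lf, hk]
      have f1 := hF i _ (c1 a) _ (c1 a) e1
      have f2 := hF i _ (c1 b) _ hv' e2
      have f3 := hF j _ (c1 b) _ (rot (c1 c) _) e3
      have f4 := hF j _ hv' _ hw e4
      have f5 := hF l _ (c1 b) _ (rot (c1 d) _) e5
      have f6 := hF l _ hv' _ hw e6
      rw [nc0] at f1 f2 f3 f5
      rw [nc] at f3 f5
      have m1 : mk v' hv' ∈ B := by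
        rw [← hB.smul_eq_of_mem ha (f1.symm ▸ ha), ← f2]
        exact Set.smul_mem_smul_set hb
      have m2 : mk w hw ∈ B := by
        rw [← hB.smul_eq_of_mem hb (f3.symm ▸ hc), ← f4]
        exact Set.smul_mem_smul_set m1
      rw [← hB.smul_eq_of_mem m1 (f6.symm ▸ m2), ← f5]
      exact Set.smul_mem_smul_set hb
    exact Set.eq_univ_of_forall fun d =>
      shr ⟨![a.1 0, d.1 1, op (a.1 0) (d.1 1)], rfl⟩ d 1 rfl (shr a _ 0 rfl ha)

end Pool.Agent.Results.MP_b62fd5_al.Exists
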